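import Pool.Agent.Helper88.AD.Stmts

/-! Packet CYBE. -/

set_option linter.all false

namespace Pool.Agent.Helper31.AD

open Pool.Agent.Helper88.AD

section Gen

variable {ι R : Type} [Fintype ι] [LinearOrder ι] [CommRing R]

/-- entries of `∑ A ⊗ B`. -/
def rr (c : R) (m : ι → ι → R) (p q u v : ι) : R :=
  (if p < q ∧ u = q ∧ v = p then c + c else 0) + (if p = q ∧ u = v then m p u else 0)

lemma sum1 (c : R) (m : ι → ι → R) (p u v : ι) (X : ι → R) :
    ∑ a, rr c m p a u v * X a =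
      (if p < u ∧ v = p then (c + c) * X u else 0) + (if u = v then m p u * X p else 0) := by
  have h : ∀ a, rr c m p a u v * X a =
      (if u = a then (if p < u ∧ v = p then (c + c) * X u else 0) else 0) +
      (if p = a then (if u = v then m p u * X p else 0) else 0) := by
    intro a
    unfold rr
    rw [add_mul]
    congr 1
    · by_cases h : u = a
      · subst h
        by_cases h2 : p < u <;> by_cases h3 : v = p <;> simp [h2, h3]
      · simp [h]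
    · by_cases h : p = a
      · subst h
        by_cases h2 : u = v <;> simp [h2]
      · simp [h]
  simp only [h, Finset.sum_add_distrib, Finset.sum_ite_eq, Finset.mem_univ, if_true]

lemma sum2 (c : R) (m : ι → ι → R) (p q u : ι) (X : ι → R) :
    ∑ a, rr c m p q u a * X a =
      (if p < q ∧ u = q then (c + c) * X p else 0) + (if p = q then m p u * X u else 0) := by
  have h : ∀ a, rr c m p q u a * X a =
      (if p = a then (if p < q ∧ u = q then (c + c) * X p else 0) else 0) +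
      (if u = a then (if p = q then m p u * X u else 0) else 0) := by
    intro a
    unfold rr
    rw [add_mul]
    congr 1
    · by_cases h : p = a
      · subst h
        by_cases h2 : p < q <;> by_cases h3 : u = q <;> simp [h2, h3]
      · have h' : ¬ (a = p) := fun h1 => h h1.symm
        simp [h, h']
    · by_cases h : u = a
      · subst h
        by_cases h2 : p = q <;> simp [h2]
      · simp [h]
  simp only [h, Finset.sum_add_distrib, Finset.sum_ite_eq, Finset.mem_univ, if_true]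

/-- The left side after the sums are evaluated. -/
def LL (c : R) (m : ι → ι → R) (i₁ j₁ i₂ j₂ i₃ j₃ : ι) : R :=
    ((if i₁ < i₂ ∧ j₂ = i₁ then (c + c) * rr c m i₂ j₁ i₃ j₃ else 0) + 
      (if i₂ = j₂ then m i₁ i₂ * rr c m i₁ j₁ i₃ j₃ else 0)) -
    ((if i₁ < i₃ ∧ j₃ = i₁ then (c + c) * rr c m i₃ j₁ i₂ j₂ else 0) + 
      (if i₃ = j₃ then m i₁ i₃ * rr c m i₁ j₁ i₂ j₂ else 0)) +
    (((if i₁ < j₁ ∧ i₂ = j₁ then (c + c) * rr c m i₁ j₂ i₃ j₃ else 0) + 
      (if i₁ = j₁ then m i₁ i₂ * rr c m i₂ j₂ i₃ j₃ else 0)) -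
    ((if i₂ < i₃ ∧ j₃ = i₂ then (c + c) * rr c m i₁ j₁ i₃ j₂ else 0) + 
      (if i₃ = j₃ then m i₂ i₃ * rr c m i₁ j₁ i₂ j₂ else 0))) +
    (((if i₁ < j₁ ∧ i₃ = j₁ then (c + c) * rr c m i₂ j₂ i₁ j₃ else 0) + 
      (if i₁ = j₁ then m i₁ i₃ * rr c m i₂ j₂ i₃ j₃ else 0)) -
    ((if i₂ < j₂ ∧ i₃ = j₂ then (c + c) * rr c m i₁ j₁ i₂ j₃ else 0) + 
      (if i₂ = j₂ then m i₂ i₃ * rr c m i₁ j₁ i₃ j₃ else 0)))

lemma three (i₁ i₂ i₃ j : ι) : 
    j = i₁ ∨ j = i₂ ∨ j = i₃ ∨ (j ≠ i₁ ∧ i₁ ≠ j ∧ j ≠ i₂ ∧ i₂ ≠ j ∧ j ≠ i₃ ∧ i₃ ≠ j) := by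
  by_cases h1 : j = i₁
  · exact Or.inl h1
  by_cases h2 : j = i₂
  · exact Or.inr (Or.inl h2)
  by_cases h3 : j = i₃
  · exact Or.inr (Or.inr (Or.inl h3))
  · exact Or.inr (Or.inr (Or.inr ⟨h1, Ne.symm h1, h2, Ne.symm h2, h3, Ne.symm h3⟩))

lemma two (i₁ i₂ j : ι) : 
    j = i₁ ∨ j = i₂ ∨ (j ≠ i₁ ∧ i₁ ≠ j ∧ j ≠ i₂ ∧ i₂ ≠ j) := by
  by_cases h1 : j = i₁
  · exact Or.inl h1
  by_cases h2 : j = i₂
  · exact Or.inr (Or.inl h2)
  · exact Or.inr (Or.inr ⟨h1, Ne.symm h1, h2, Ne.symm h2⟩)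

lemma one (i₁ j : ι) : j = i₁ ∨ (j ≠ i₁ ∧ i₁ ≠ j) := by
  by_cases h1 : j = i₁
  · exact Or.inl h1
  · exact Or.inr ⟨h1, Ne.symm h1⟩

set_option maxHeartbeats 8000000 in
lemma key_distinct (c : R) (m : ι → ι → R) (i₁ j₁ i₂ j₂ i₃ j₃ : ι) 
    (s12 : m i₂ i₁ = - m i₁ i₂) (s13 : m i₃ i₁ = - m i₁ i₃) (s23 : m i₃ i₂ = - m i₂ i₃)
    (n12 : i₁ ≠ i₂) (n13 : i₁ ≠ i₃) (n23 : i₂ ≠ i₃) :
    LL c m i₁ j₁ i₂ j₂ i₃ j₃ = 0 := by
  have J1 := three i₁ i₂ i₃ j₁
  have J2 := three i₁ i₂ i₃ j₂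
  have J3 := three i₁ i₂ i₃ j₃
  have n21 := n12.symm
  have n31 := n13.symm
  have n32 := n23.symm
  rcases lt_or_gt_of_ne n12 with h12 | h12 <;> rcases lt_or_gt_of_ne n13 with h13 | h13 <;> 
    rcases lt_or_gt_of_ne n23 with h23 | h23
  · have g12 := h12.not_gt
    have g13 := h13.not_gt
    have g23 := h23.not_gt
    unfold LL rr
    rcases J1 with J1 | J1 | J1 | J1 <;> rcases J2 with J2 | J2 | J2 | J2 <;> rcases J3 with J3 | J3 | J3 | J3 <;>
      simp [*] <;> ring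
  · have g12 := h12.not_gt
    have g13 := h13.not_gt
    have g23 := h23.not_gt
    unfold LL rr
    rcases J1 with J1 | J1 | J1 | J1 <;> rcases J2 with J2 | J2 | J2 | J2 <;> rcases J3 with J3 | J3 | J3 | J3 <;>
      simp [*] <;> ring
  · exact absurd (h12.trans h23) h13.not_gt
  · have g12 := h12.not_gt
    have g13 := h13.not_gt
    have g23 := h23.not_gt
    unfold LL rr
    rcases J1 with J1 | J1 | J1 | J1 <;> rcases J2 with J2 | J2 | J2 | J2 <;> rcases J3 with J3 | J3 | J3 | J3 <;>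
      simp [*] <;> ring
  · have g12 := h12.not_gt
    have g13 := h13.not_gt
    have g23 := h23.not_gt
    unfold LL rr
    rcases J1 with J1 | J1 | J1 | J1 <;> rcases J2 with J2 | J2 | J2 | J2 <;> rcases J3 with J3 | J3 | J3 | J3 <;>
      simp [*] <;> ring
  · exact absurd (h13.trans h23) h12.not_gt
  · have g12 := h12.not_gt
    have g13 := h13.not_gt
    have g23 := h23.not_gt
    unfold LL rr
    rcases J1 with J1 | J1 | J1 | J1 <;> rcases J2 with J2 | J2 | J2 | J2 <;> rcases J3 with J3 | J3 | J3 | J3 <;>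
      simp [*] <;> ring
  · have g12 := h12.not_gt
    have g13 := h13.not_gt
    have g23 := h23.not_gt
    unfold LL rr
    rcases J1 with J1 | J1 | J1 | J1 <;> rcases J2 with J2 | J2 | J2 | J2 <;> rcases J3 with J3 | J3 | J3 | J3 <;>
      simp [*] <;> ring

set_option maxHeartbeats 8000000 in
lemma key_12 (c : R) (m : ι → ι → R) (i₁ j₁ j₂ i₃ j₃ : ι) 
    (s11 : m i₁ i₁ = c) (s33 : m i₃ i₃ = c) (s13 : m i₃ i₁ = - m i₁ i₃) (n13 : i₁ ≠ i₃) :
    LL c m i₁ j₁ i₁ j₂ i₃ j₃ = 0 := by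
  have J1 := two i₁ i₃ j₁
  have J2 := two i₁ i₃ j₂
  have J3 := two i₁ i₃ j₃
  have n31 := n13.symm
  rcases lt_or_gt_of_ne n13 with h13 | h13 
  · have g13 := h13.not_gt
    unfold LL rr
    rcases J1 with J1 | J1 | J1 <;> rcases J2 with J2 | J2 | J2 <;> rcases J3 with J3 | J3 | J3 <;>
      simp [*] <;> ring
  · have g13 := h13.not_gt
    unfold LL rr
    rcases J1 with J1 | J1 | J1 <;> rcases J2 with J2 | J2 | J2 <;> rcases J3 with J3 | J3 | J3 <;>
      simp [*] <;> ring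

set_option maxHeartbeats 8000000 in
lemma key_13 (c : R) (m : ι → ι → R) (i₁ j₁ i₂ j₂ j₃ : ι) 
    (s11 : m i₁ i₁ = c) (s22 : m i₂ i₂ = c) (s12 : m i₂ i₁ = - m i₁ i₂) (n12 : i₁ ≠ i₂) :
    LL c m i₁ j₁ i₂ j₂ i₁ j₃ = 0 := by
  have J1 := two i₁ i₂ j₁
  have J2 := two i₁ i₂ j₂
  have J3 := two i₁ i₂ j₃
  have n21 := n12.symm
  rcases lt_or_gt_of_ne n12 with h12 | h12 
  · have g12 := h12.not_gt
    unfold LL rr
    rcases J1 with J1 | J1 | J1 <;> rcases J2 with J2 | J2 | J2 <;> rcases J3 with J3 | J3 | J3 <;>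
      simp [*] <;> ring
  · have g12 := h12.not_gt
    unfold LL rr
    rcases J1 with J1 | J1 | J1 <;> rcases J2 with J2 | J2 | J2 <;> rcases J3 with J3 | J3 | J3 <;>
      simp [*] <;> ring

set_option maxHeartbeats 8000000 in
lemma key_23 (c : R) (m : ι → ι → R) (i₁ j₁ i₂ j₂ j₃ : ι) 
    (s11 : m i₁ i₁ = c) (s22 : m i₂ i₂ = c) (s12 : m i₂ i₁ = - m i₁ i₂) (n12 : i₁ ≠ i₂) :
    LL c m i₁ j₁ i₂ j₂ i₂ j₃ = 0 := by
  have J1 := two i₁ i₂ j₁
  have J2 := two i₁ i₂ j₂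
  have J3 := two i₁ i₂ j₃
  have n21 := n12.symm
  rcases lt_or_gt_of_ne n12 with h12 | h12 
  · have g12 := h12.not_gt
    unfold LL rr
    rcases J1 with J1 | J1 | J1 <;> rcases J2 with J2 | J2 | J2 <;> rcases J3 with J3 | J3 | J3 <;>
      simp [*] <;> ring
  · have g12 := h12.not_gt
    unfold LL rr
    rcases J1 with J1 | J1 | J1 <;> rcases J2 with J2 | J2 | J2 <;> rcases J3 with J3 | J3 | J3 <;>
      simp [*] <;> ring

lemma key_123 (c : R) (m : ι → ι → R) (i₁ j₁ j₂ j₃ : ι) (s11 : m i₁ i₁ = c) :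
    LL c m i₁ j₁ i₁ j₂ i₁ j₃ = 0 := by
  have J1 := one i₁ j₁
  have J2 := one i₁ j₂
  have J3 := one i₁ j₃
  unfold LL rr
  rcases J1 with J1 | J1 <;> rcases J2 with J2 | J2 <;> rcases J3 with J3 | J3 <;>
      simp [*] <;> ring

lemma key (c : R) (m : ι → ι → R) (hm : ∀ i, m i i = c) (hs : ∀ i j, i ≠ j → m j i = - m i j)
    (i₁ j₁ i₂ j₂ i₃ j₃ : ι) :
    LL c m i₁ j₁ i₂ j₂ i₃ j₃ = 0 := by
  by_cases h12 : i₁ = i₂
  · by_cases h13 : i₁ = i₃
    · subst h12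
      subst h13
      exact key_123 c m _ _ _ _ (hm _)
    · subst h12
      exact key_12 c m _ _ _ _ _ (hm _) (hm _) (hs _ _ h13) h13
  · by_cases h13 : i₁ = i₃
    · subst h13
      exact key_13 c m _ _ _ _ _ (hm _) (hm _) (hs _ _ h12) h12
    · by_cases h23 : i₂ = i₃
      · subst h23
        exact key_23 c m _ _ _ _ _ (hm _) (hm _) (hs _ _ h12) h12
      · exact key_distinct c m _ _ _ _ _ _ (hs _ _ h12) (hs _ _ h13) (hs _ _ h23) h12 h13 h23

lemma key_sum (c : R) (m : ι → ι → R) (hm : ∀ i, m i i = c) (hs : ∀ i j, i ≠ j → m j i = - m i j)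
    (i₁ j₁ i₂ j₂ i₃ j₃ : ι) :
    ((∑ a, rr c m i₁ a i₂ j₂ * rr c m a j₁ i₃ j₃) - ∑ a, rr c m i₁ a i₃ j₃ * rr c m a j₁ i₂ j₂) +
    ((∑ a, rr c m i₁ j₁ i₂ a * rr c m a j₂ i₃ j₃) - ∑ a, rr c m i₂ a i₃ j₃ * rr c m i₁ j₁ a j₂) +
    ((∑ a, rr c m i₁ j₁ i₃ a * rr c m i₂ j₂ a j₃) - ∑ a, rr c m i₂ j₂ i₃ a * rr c m i₁ j₁ a j₃) = 0 := by
  rw [sum1 c m i₁ i₂ j₂ (fun a => rr c m a j₁ i₃ j₃), sum1 c m i₁ i₃ j₃ (fun a => rr c m a j₁ i₂ j₂),
    sum2 c m i₁ j₁ i₂ (fun a => rr c m a j₂ i₃ j₃), sum1 c m i₂ i₃ j₃ (fun a => rr c m i₁ j₁ a j₂),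
    sum2 c m i₁ j₁ i₃ (fun a => rr c m i₂ j₂ a j₃), sum2 c m i₂ j₂ i₃ (fun a => rr c m i₁ j₁ a j₃)]
  exact key c m hm hs i₁ j₁ i₂ j₂ i₃ j₃

end Gen

lemma swp1 {K ι R : Type} [Fintype K] [Fintype ι] [CommRing R] (F : K → K → ι → R) :
    ∑ k, ∑ l, ∑ a, F k l a = ∑ a, ∑ k, ∑ l, F k l a := by
  rw [Finset.sum_comm]
  rw [Finset.sum_comm]
  have : ∀ k, ∑ l, ∑ a, F k l a = ∑ a, ∑ l, F k l a := fun k => Finset.sum_comm
  rw [Finset.sum_congr rfl (fun k _ => this k)]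
  rw [Finset.sum_comm]

lemma swp2 {K ι R : Type} [Fintype K] [Fintype ι] [CommRing R] (F : K → K → ι → R) :
    ∑ k, ∑ l, ∑ a, F k l a = ∑ a, ∑ l, ∑ k, F k l a := by
  rw [swp1]
  refine Finset.sum_congr rfl fun a _ => ?_
  exact Finset.sum_comm

lemma cybe_of_entries {K ι R : Type} [Fintype K] [Fintype ι] [DecidableEq ι] [CommRing R]
    (A B : K → Matrix ι ι R) (r : ι → ι → ι → ι → R)
    (hr : ∀ p q u v, ∑ k, A k p q * B k u v = r p q u v)
    (h : ∀ i₁ j₁ i₂ j₂ i₃ j₃ : ι,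
    ((∑ a, r i₁ a i₂ j₂ * r a j₁ i₃ j₃) - ∑ a, r i₁ a i₃ j₃ * r a j₁ i₂ j₂) +
    ((∑ a, r i₁ j₁ i₂ a * r a j₂ i₃ j₃) - ∑ a, r i₂ a i₃ j₃ * r i₁ j₁ a j₂) +
    ((∑ a, r i₁ j₁ i₃ a * r i₂ j₂ a j₃) - ∑ a, r i₂ j₂ i₃ a * r i₁ j₁ a j₃) = 0) : CYBE A B := by
  intro i₁ j₁ i₂ j₂ i₃ j₃
  rw [← h i₁ j₁ i₂ j₂ i₃ j₃]
  have e1 : ∑ k, ∑ l, (A k * A l) i₁ j₁ * B k i₂ j₂ * B l i₃ j₃ = ∑ a, r i₁ a i₂ j₂ * r a j₁ i₃ j₃ := by
    have L : ∀ k l, (A k * A l) i₁ j₁ * B k i₂ j₂ * B l i₃ j₃ = ∑ a, A k i₁ a * A l a j₁ * B k i₂ j₂ * B l i₃ j₃ := by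
      intro k l
      simp only [Matrix.mul_apply, Finset.sum_mul, Finset.mul_sum]
    simp only [L]
    rw [swp1]
    refine Finset.sum_congr rfl fun a _ => ?_
    rw [← hr, ← hr, Finset.sum_mul_sum]
    refine Finset.sum_congr rfl fun k _ => Finset.sum_congr rfl fun l _ => ?_
    ring
  have e2 : ∑ k, ∑ l, (A l * A k) i₁ j₁ * B k i₂ j₂ * B l i₃ j₃ = ∑ a, r i₁ a i₃ j₃ * r a j₁ i₂ j₂ := by
    have L : ∀ k l, (A l * A k) i₁ j₁ * B k i₂ j₂ * B l i₃ j₃ = ∑ a, A l i₁ a * A k a j₁ * B k i₂ j₂ * B l i₃ j₃ := by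
      intro k l
      simp only [Matrix.mul_apply, Finset.sum_mul, Finset.mul_sum]
    simp only [L]
    rw [swp2]
    refine Finset.sum_congr rfl fun a _ => ?_
    rw [← hr, ← hr, Finset.sum_mul_sum]
    refine Finset.sum_congr rfl fun k _ => Finset.sum_congr rfl fun l _ => ?_
    ring
  have e3 : ∑ k, ∑ l, A k i₁ j₁ * (B k * A l) i₂ j₂ * B l i₃ j₃ = ∑ a, r i₁ j₁ i₂ a * r a j₂ i₃ j₃ := by
    have L : ∀ k l, A k i₁ j₁ * (B k * A l) i₂ j₂ * B l i₃ j₃ = ∑ a, A k i₁ j₁ * (B k i₂ a * A l a j₂) * B l i₃ j₃ := by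
      intro k l
      simp only [Matrix.mul_apply, Finset.sum_mul, Finset.mul_sum]
    simp only [L]
    rw [swp1]
    refine Finset.sum_congr rfl fun a _ => ?_
    rw [← hr, ← hr, Finset.sum_mul_sum]
    refine Finset.sum_congr rfl fun k _ => Finset.sum_congr rfl fun l _ => ?_
    ring
  have e4 : ∑ k, ∑ l, A k i₁ j₁ * (A l * B k) i₂ j₂ * B l i₃ j₃ = ∑ a, r i₂ a i₃ j₃ * r i₁ j₁ a j₂ := by
    have L : ∀ k l, A k i₁ j₁ * (A l * B k) i₂ j₂ * B l i₃ j₃ = ∑ a, A k i₁ j₁ * (A l i₂ a * B k a j₂) * B l i₃ j₃ := by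
      intro k l
      simp only [Matrix.mul_apply, Finset.sum_mul, Finset.mul_sum]
    simp only [L]
    rw [swp2]
    refine Finset.sum_congr rfl fun a _ => ?_
    rw [← hr, ← hr, Finset.sum_mul_sum]
    refine Finset.sum_congr rfl fun k _ => Finset.sum_congr rfl fun l _ => ?_
    ring
  have e5 : ∑ k, ∑ l, A k i₁ j₁ * A l i₂ j₂ * (B k * B l) i₃ j₃ = ∑ a, r i₁ j₁ i₃ a * r i₂ j₂ a j₃ := by
    have L : ∀ k l, A k i₁ j₁ * A l i₂ j₂ * (B k * B l) i₃ j₃ = ∑ a, A k i₁ j₁ * A l i₂ j₂ * (B k i₃ a * B l a j₃) := by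
      intro k l
      simp only [Matrix.mul_apply, Finset.sum_mul, Finset.mul_sum]
    simp only [L]
    rw [swp1]
    refine Finset.sum_congr rfl fun a _ => ?_
    rw [← hr, ← hr, Finset.sum_mul_sum]
    refine Finset.sum_congr rfl fun k _ => Finset.sum_congr rfl fun l _ => ?_
    ring
  have e6 : ∑ k, ∑ l, A k i₁ j₁ * A l i₂ j₂ * (B l * B k) i₃ j₃ = ∑ a, r i₂ j₂ i₃ a * r i₁ j₁ a j₃ := by
    have L : ∀ k l, A k i₁ j₁ * A l i₂ j₂ * (B l * B k) i₃ j₃ = ∑ a, A k i₁ j₁ * A l i₂ j₂ * (B l i₃ a * B k a j₃) := by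
      intro k l
      simp only [Matrix.mul_apply, Finset.sum_mul, Finset.mul_sum]
    simp only [L]
    rw [swp2]
    refine Finset.sum_congr rfl fun a _ => ?_
    rw [← hr, ← hr, Finset.sum_mul_sum]
    refine Finset.sum_congr rfl fun k _ => Finset.sum_congr rfl fun l _ => ?_
    ring
  rw [← e1, ← e2, ← e3, ← e4, ← e5, ← e6]
  simp only [← Finset.sum_sub_distrib, ← Finset.sum_add_distrib]
  refine Finset.sum_congr rfl fun k _ => Finset.sum_congr rfl fun l _ => ?_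
  simp only [Matrix.sub_apply]
  ring

lemma half : (MvPolynomial.C (1 / 2) : RR) + MvPolynomial.C (1 / 2) = 1 := by
  rw [← MvPolynomial.C_add]
  norm_num

lemma entries (s : ℕ) (p q u v : Fin (s + 1)) :
    ∑ k, AA s k p q * BB s k u v =
      rr (MvPolynomial.C (1 / 2) : RR) (fun i j : Fin (s + 1) => mm i j) p q u v := by
  rw [Fintype.sum_prod_type, Fintype.sum_bool, Fintype.sum_prod_type, Fintype.sum_prod_type]
  unfold rr
  rw [half]
  congr 1
  · have h : ∀ x y : Fin (s + 1), AA s (true, x, y) p q * BB s (true, x, y) u v =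
        if x = p then (if y = q then (if p < q ∧ u = q ∧ v = p then 1 else 0) else 0) else 0 := by
      intro x y
      simp only [AA, BB, if_true]
      by_cases h1 : x = p
      · subst h1
        by_cases h2 : y = q
        · subst h2
          by_cases h3 : x < y
          · simp only [h3, if_true, Matrix.single_apply, true_and, and_self, one_mul]
            by_cases h4 : u = y <;> by_cases h5 : v = x <;> simp [h4, h5, eq_comm]
          · simp [h3]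
        · simp only [h2, if_false, if_true]
          by_cases h3 : x < y
          · simp [h3, Matrix.single_apply, h2]
          · simp [h3]
      · simp only [h1, if_false]
        by_cases h3 : x < y
        · simp [h3, Matrix.single_apply, h1]
        · simp [h3]
    simp only [h]
    rw [Finset.sum_eq_single p]
    · rw [Finset.sum_eq_single q]
      · simp
      · intro b _ hb
        simp [hb]
      · simp
    · intro b _ hb
      simp [hb]
    · simp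
  · have h : ∀ x y : Fin (s + 1), AA s (false, x, y) p q * BB s (false, x, y) u v =
        if x = p then (if y = u then (if p = q ∧ u = v then mm p u else 0) else 0) else 0 := by
      intro x y
      simp only [AA, BB, if_false, Bool.false_eq_true]
      by_cases h1 : x = p
      · subst h1
        by_cases h2 : y = u
        · subst h2
          by_cases h3 : x = q
          · subst h3
            by_cases h4 : y = v
            · simp [Matrix.single_apply, h4]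
            · simp [Matrix.single_apply, h4]
          · simp [Matrix.single_apply, h3]
        · simp [Matrix.single_apply, h2]
      · simp [Matrix.single_apply, h1]
    simp only [h]
    rw [Finset.sum_eq_single p]
    · rw [Finset.sum_eq_single u]
      · simp
      · intro b _ hb
        simp [hb]
      · simp
    · intro b _ hb
      simp [hb]
    · simp

theorem stmtCYBE : StmtCYBE := by
  intro s
  refine cybe_of_entries _ _ _ (entries s) ?_
  intro i₁ j₁ i₂ j₂ i₃ j₃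
  refine key_sum _ _ ?_ ?_ i₁ j₁ i₂ j₂ i₃ j₃
  · intro i
    simp [mm]
  · intro i j hij
    have h1 : (i : ℕ) ≠ (j : ℕ) := fun h => hij (Fin.ext h)
    rcases lt_or_gt_of_ne h1 with h | h
    · simp [mm, h1, h1.symm, h, h.not_gt]
    · simp [mm, h1, h1.symm, h, h.not_gt]

end Pool.Agent.Helper31.AD
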